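import Pool.Agent.H960.FV.Bas

/-! Project FV (helper960), part PCALAW: law of the block evaluation. -/

set_option autoImplicit false

open MeasureTheory Filter Topology H960FV

namespace Pool.Agent.H187.FV

theorem exists_bx {d : ℕ} (F : Finset (Z d)) : ∃ r : ℕ, F ⊆ bx d r := by
  refine ⟨F.sup fun x => Finset.univ.sup fun i => (x i).natAbs, fun x hx => ?_⟩
  rw [mem_bx]
  intro i
  rw [Int.abs_eq_natAbs]
  have h1 : (x i).natAbs ≤ Finset.univ.sup fun i => (x i).natAbs :=
    Finset.le_sup (f := fun i => (x i).natAbs) (Finset.mem_univ i)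
  have h2 : (Finset.univ.sup fun i => (x i).natAbs) ≤
      F.sup fun x => Finset.univ.sup fun i => (x i).natAbs :=
    Finset.le_sup (f := fun x : Z d => Finset.univ.sup fun i => (x i).natAbs) hx
  exact_mod_cast h1.trans h2

/-- sets which depend on finitely many coordinates are measurable -/
theorem meas_of_fin {I T : Type} [Finite T] [MeasurableSpace T] [MeasurableSingletonClass T]
    (S : Set (I → T)) (K : Finset I)
    (h : ∀ ω ω' : I → T, (∀ k ∈ K, ω k = ω' k) → ω ∈ S → ω' ∈ S) : MeasurableSet S := by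
  have h1 : S = (fun (ω : I → T) (k : K) => ω k) ⁻¹' ((fun (ω : I → T) (k : K) => ω k) '' S) := by
    ext ω
    constructor
    · intro hω
      exact ⟨ω, hω, rfl⟩
    · rintro ⟨ω', hω', he⟩
      exact h ω' ω (fun k hk => congrFun he ⟨k, hk⟩) hω'
  rw [h1]
  have h2 : Measurable (fun (ω : I → T) (k : K) => ω k) :=
    measurable_pi_lambda _ fun k => measurable_pi_apply _
  exact h2 (Set.toFinite _).measurableSet

/-- the evaluation depends on finitely many coordinates -/
theorem ev_fin {d : ℕ} {Sg St : Type} {G : (Z d → Sg) → (Z d → St) → St} {ρ : ℕ}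
    (hG : IsLoc ρ G) (s0 : Z d → St) (k : ℕ) : ∀ (j : ℕ) (v : Z d), ∃ K : Finset (Z d × ℕ),
    ∀ B B' : Z d × ℕ → Sg, (∀ a ∈ K, B a = B' a) → ev G B s0 k j v = ev G B' s0 k j v := by
  classical
  induction k with
  | zero =>
    intro j v
    exact ⟨∅, fun _ _ _ => rfl⟩
  | succ k ih =>
    intro j v
    choose K hK using ih
    refine ⟨(bx d ρ).image (fun x => (v + x, j)) ∪ (bx d ρ).biUnion fun x => K (j + 1) (v + x),
      fun B B' h => ?_⟩
    change G (fun x => B (v + x, j)) (fun x => ev G B s0 k (j + 1) (v + x)) =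
      G (fun x => B' (v + x, j)) (fun x => ev G B' s0 k (j + 1) (v + x))
    apply hG
    · intro x hx
      exact h _ (Finset.mem_union_left _ (Finset.mem_image_of_mem _ hx))
    · intro x hx
      exact hK _ _ B B' fun a ha =>
        h a (Finset.mem_union_right _ (Finset.mem_biUnion.2 ⟨x, hx, ha⟩))

/-- steps with the translated noise -/
theorem steps_eq {d : ℕ} {S A : Type} {F F' : Finset (Z d)} (f : (F → S) → (F' → A) → S)
    (W : Z d × ℤ → A) (s0 : Z d → S) (m M : ℕ) (v : Z d) (w : ℕ → Z d → A)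
    (hw : ∀ n < M, ∀ x, w n x = W (v + x, ((m + n : ℕ) : ℤ))) (n : ℕ) (hn : n ≤ M) :
    ∀ x, steps f w (fun x => evo f W s0 0 m (v + x)) n x = evo f W s0 0 (m + n) (v + x) := by
  induction n with
  | zero =>
    intro x
    rfl
  | succ n ih =>
    intro x
    change f (fun u => steps f w (fun x => evo f W s0 0 m (v + x)) n (x + u))
      (fun u => w n (x + u)) =
      f (fun u => evo f W s0 0 (m + n) (v + x + u)) (fun u => W (v + x + u, 0 + ((m + n : ℕ) : ℤ)))
    have e1 : (fun u : F => steps f w (fun x => evo f W s0 0 m (v + x)) n (x + u)) =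
        fun u : F => evo f W s0 0 (m + n) (v + x + u) := by
      funext u
      rw [ih (by omega), add_assoc]
    have e2 : (fun u : F' => w n (x + u)) = fun u : F' => W (v + x + u, 0 + ((m + n : ℕ) : ℤ)) := by
      funext u
      rw [hw n (by omega), add_assoc, zero_add]
    rw [e1, e2]

/-- the reindexing -/
def e (d N k : ℕ) (a : (Z d × ℕ) × Fin (N + 1)) : Z d × ℤ :=
  (a.1.1, ((k : ℤ) - 1 - a.1.2) * (N + 1) + (a.2 : ℕ))

theorem e_inj (d N k : ℕ) : Function.Injective (e d N k) := by
  rintro ⟨⟨v, i⟩, κ⟩ ⟨⟨v', i'⟩, κ'⟩ h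
  unfold e at h
  simp only [Prod.mk.injEq] at h
  obtain ⟨h1, h2⟩ := h
  have hκ := κ.2
  have hκ' := κ'.2
  have h3 : i = i' := by
    by_contra hne
    have hN : (0 : ℤ) < N + 1 := by positivity
    have h4 : ((i' : ℤ) - i) * (N + 1) = (κ' : ℕ) - (κ : ℕ) := by linarith
    have h5 : |((κ' : ℕ) : ℤ) - (κ : ℕ)| < N + 1 := by
      rw [abs_lt]
      constructor <;> omega
    rw [← h4, abs_mul, abs_of_pos hN] at h5
    have h6 : 1 ≤ |(i' : ℤ) - i| := by
      apply Int.one_le_abs
      intro h7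
      apply hne
      omega
    nlinarith
  subst h3
  have h4 : ((κ : ℕ) : ℤ) = (κ' : ℕ) := by linarith
  have h5 : κ = κ' := Fin.ext (by exact_mod_cast h4)
  subst h5
  subst h1
  rfl

theorem ev_eq {d : ℕ} {S A : Type} {F F' : Finset (Z d)} (f : (F → S) → (F' → A) → S)
    (N k : ℕ) (s0 : Z d → S) (W : Z d × ℤ → A) (k' : ℕ) (hk' : k' ≤ k) : ∀ v,
    ev (blk f N) (fun (j : Z d × ℕ) (κ : Fin (N + 1)) => W (e d N k (j, κ))) s0 k' (k - k') v =
      evo f W s0 0 (k' * (N + 1)) v := by
  induction k' with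
  | zero =>
    intro v
    rw [zero_mul]
    rfl
  | succ k' ih =>
    intro v
    have e0 : k - (k' + 1) + 1 = k - k' := by omega
    change blk f N (fun x (κ : Fin (N + 1)) => W (e d N k ((v + x, k - (k' + 1)), κ)))
      (fun x => ev (blk f N) (fun (j : Z d × ℕ) (κ : Fin (N + 1)) => W (e d N k (j, κ))) s0 k'
        (k - (k' + 1) + 1) (v + x)) = _
    rw [e0]
    have e1 : (fun x => ev (blk f N) (fun (j : Z d × ℕ) (κ : Fin (N + 1)) => W (e d N k (j, κ)))
        s0 k' (k - k') (v + x)) = fun x => evo f W s0 0 (k' * (N + 1)) (v + x) := by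
      funext x
      exact ih (by omega) (v + x)
    rw [e1]
    unfold blk
    rw [steps_eq f W s0 (k' * (N + 1)) (N + 1) v _ ?_ (N + 1) le_rfl 0]
    · rw [add_zero, add_mul, one_mul]
    · intro n hn x
      unfold e
      dsimp only
      congr 2
      have h1 : ((k - (k' + 1) : ℕ) : ℤ) = k - (k' + 1) := by
        push_cast [Nat.cast_sub hk']
        ring
      have h2 : ((Fin.ofNat (N + 1) n : Fin (N + 1)) : ℕ) = n := by
        rw [Fin.val_ofNat]
        exact Nat.mod_eq_of_lt hn
      rw [h1, h2]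
      push_cast
      ring

theorem pcalaw (h1 : S_pcaloc) (h2 : S_blockmap) : S_pcalaw := by
  intro d S A _ _ _ α _ F F' f N k s0 Λ η
  classical
  obtain ⟨r, hr⟩ := exists_bx (F ∪ F')
  have hloc := h1 d S A F F' f r N (Finset.union_subset_left hr) (Finset.union_subset_right hr)
  have hmp := h2 (Z d × ℤ) (Z d × ℕ) (N + 1) A α (e d N k) (e_inj d N k)
  have hms : MeasurableSet {B : Z d × ℕ → Fin (N + 1) → A |
      ∀ v ∈ Λ, ev (blk f N) B s0 k 0 v = η v} := by
    choose K hK using fun v => ev_fin hloc s0 k 0 v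
    refine meas_of_fin _ (Λ.biUnion K) fun B B' h hB v hv => ?_
    rw [← hK v B B' fun a ha => h a (Finset.mem_biUnion.2 ⟨v, hv, ha⟩)]
    exact hB v hv
  have hpre := hmp.measure_preimage hms.nullMeasurableSet
  unfold Measure.real
  rw [← hpre]
  congr 2
  ext W
  have key := ev_eq f N k s0 W k le_rfl
  rw [Nat.sub_self] at key
  constructor
  · intro h v hv
    rw [← key v]
    exact h v hv
  · intro h v hv
    exact (key v).trans (h v hv)

end Pool.Agent.H187.FV
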